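import Pool.Agent.Q106.ReconfGraph

/-!
# MP_fb0e57_co, Q1: the girth of the reconfiguration graph of minimal dominating sets

If `R(G)` contains a cycle, then it contains a cycle of length at most `5`.
-/

set_option autoImplicit false

namespace Pool.Agent.Results.MP_fb0e57_co.GirthAtMostFive

open Q106.ReconfGraph

/-- **Main result.** For every finite graph `G` the reconfiguration graph `R(G)` of the minimal
dominating sets of `G` is acyclic or has girth at most `5`; moreover it is acyclic only if all edges
of `G` have a common vertex. -/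
theorem result {V : Type*} [Finite V] [Nonempty V] (G : SimpleGraph V) :
    (¬ (reconf G).IsAcyclic → (reconf G).girth ≤ 5 ∧
      ∃ (M : _) (c : (reconf G).Walk M M), c.IsCycle ∧ c.length ≤ 5) ∧
    ((reconf G).IsAcyclic ↔ ∃ v : V, ∀ x y, G.Adj x y → x = v ∨ y = v) := by
  have key : (reconf G).IsAcyclic → ∃ v : V, ∀ x y, G.Adj x y → x = v ∨ y = v := by
    intro hac
    by_contra hcon
    obtain ⟨M, c, hc, _⟩ := exists_short_cycle hcon inferInstance
    exact hac c hc
  refine ⟨fun h => ?_, key, fun ⟨v, hv⟩ => (star_isTree hv).2⟩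
  have h1 : ¬ ∃ v : V, ∀ x y, G.Adj x y → x = v ∨ y = v := by
    rintro ⟨v, hv⟩
    exact h (star_isTree hv).2
  obtain ⟨M, c, hc, hlen⟩ := exists_short_cycle h1 inferInstance
  exact ⟨(SimpleGraph.girth_le_length hc).trans hlen, M, c, hc, hlen⟩

end Pool.Agent.Results.MP_fb0e57_co.GirthAtMostFive
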